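import Pool.Agent.K1H54.NU.Stm

/-! # Non-uniqueness for the infinite system (piece NU-POST for helper54) -/

open Set Filter Topology MeasureTheory
open scoped ENNReal

set_option autoImplicit false

namespace Pool.Agent.K1H10.NU

open Pool.Agent.K1H54.NU

/-! ### Restrictions and packets -/

section

variable (G : GS)

/-- the restriction to the shells `≤ k` -/
noncomputable def res (x : G.I ⊕ G.J → ℝ) (k : ℕ) : G.I ⊕ G.J → ℝ :=
  fun i => if G.s i ≤ k then x i else 0

theorem en_res_le (x : G.I ⊕ G.J → ℝ) (k : ℕ) : G.en (res G x k) ≤ G.en x := by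
  refine ENNReal.tsum_le_tsum fun i => ?_
  unfold res
  split_ifs
  · exact le_rfl
  · refine ENNReal.ofReal_le_ofReal ?_
    rw [zero_pow two_ne_zero]
    exact sq_nonneg _

theorem en_res_tendsto (x : G.I ⊕ G.J → ℝ) :
    Tendsto (fun k => G.en (res G x k)) atTop (𝓝 (G.en x)) := by
  rw [tendsto_order]
  constructor
  · intro b hb
    unfold GS.en at hb
    rw [ENNReal.tsum_eq_iSup_sum] at hb
    obtain ⟨F, hF⟩ := lt_iSup_iff.1 hb
    filter_upwards [eventually_ge_atTop (F.sup G.s)] with k hk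
    refine hF.trans_le ?_
    have h1 : ∑ i ∈ F, ENNReal.ofReal (x i ^ 2) = ∑ i ∈ F, ENNReal.ofReal (res G x k i ^ 2) := by
      refine Finset.sum_congr rfl fun i hi => ?_
      unfold res
      rw [if_pos ((Finset.le_sup hi).trans hk)]
    rw [h1]
    exact ENNReal.sum_le_tsum F
  · intro b hb
    exact Eventually.of_forall fun k => (en_res_le G x k).trans_lt hb

/-- a flat packet of type `true` in the shell `k` of the inverse cascade -/
noncomputable def pk (k : ℕ) (c : ℝ) : G.I ⊕ G.J → ℝ :=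
  Sum.elim (fun _ => 0) (fun j => fl G.sh' G.ty' G.ρ' true k j * c)

theorem en_pk (k : ℕ) (c : ℝ) : G.en (pk G k c) = ENNReal.ofReal (c ^ 2) := by
  classical
  have hρ : (0 : ℝ) < G.ρ' k := by exact_mod_cast G.pos' k
  set S := (G.fin' k true).toFinset with hS
  have hcard : S.card = G.ρ' k := by
    rw [← G.card' k true, Set.ncard_eq_toFinset_card _ (G.fin' k true)]
  have h1 : G.en (pk G k c) = ∑ i ∈ S.map ⟨Sum.inr, Sum.inr_injective⟩,
      ENNReal.ofReal (pk G k c i ^ 2) := by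
    unfold GS.en
    refine tsum_eq_sum fun i hi => ?_
    cases i with
    | inl i =>
      change ENNReal.ofReal ((0 : ℝ) ^ 2) = 0
      rw [zero_pow two_ne_zero, ENNReal.ofReal_zero]
    | inr j =>
      have hj : ¬ (G.sh' j = k ∧ G.ty' j = true) := by
        intro h
        apply hi
        rw [Finset.mem_map]
        exact ⟨j, by rw [hS, Set.Finite.mem_toFinset]; exact h, rfl⟩
      change ENNReal.ofReal ((fl G.sh' G.ty' G.ρ' true k j * c) ^ 2) = 0
      unfold fl
      rw [if_neg hj, zero_mul, zero_pow two_ne_zero, ENNReal.ofReal_zero]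
  rw [h1, Finset.sum_map]
  have h2 : ∀ j ∈ S, ENNReal.ofReal (pk G k c ((⟨Sum.inr, Sum.inr_injective⟩ :
      G.J ↪ G.I ⊕ G.J) j) ^ 2) = ENNReal.ofReal (c ^ 2 / G.ρ' k) := by
    intro j hj
    rw [hS, Set.Finite.mem_toFinset] at hj
    have hj' : G.sh' j = k ∧ G.ty' j = true := hj
    change ENNReal.ofReal ((fl G.sh' G.ty' G.ρ' true k j * c) ^ 2) = _
    unfold fl
    rw [if_pos hj', mul_pow, inv_pow, Real.sq_sqrt hρ.le, inv_mul_eq_div]
  rw [Finset.sum_congr rfl h2, Finset.sum_const, hcard, nsmul_eq_mul,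
    ← ENNReal.ofReal_natCast, ← ENNReal.ofReal_mul hρ.le, mul_div_cancel₀ _ hρ.ne']

theorem en_add (x : G.I ⊕ G.J → ℝ) (hx : ∀ j, x (Sum.inr j) = 0) (k : ℕ) (c : ℝ) :
    G.en (fun i => res G x k i + pk G k c i) = G.en (res G x k) + ENNReal.ofReal (c ^ 2) := by
  rw [← en_pk G k c]
  unfold GS.en
  rw [← ENNReal.tsum_add]
  refine tsum_congr fun i => ?_
  rw [← ENNReal.ofReal_add (sq_nonneg _) (sq_nonneg _)]
  congr 1
  cases i with
  | inl i =>
    have : pk G k c (Sum.inl i) = 0 := rfl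
    simp only [this]
    ring
  | inr j =>
    have : res G x k (Sum.inr j) = 0 := by
      unfold res
      rw [hx j]
      split_ifs <;> rfl
    simp only [this]
    ring

theorem P_zero {x : G.I ⊕ G.J → ℝ} (hx : ∀ j, x (Sum.inr j) = 0) (n : ℕ) : G.P n x = 0 := by
  unfold GS.P ap
  rw [← tsum_zero (α := ℝ) (β := G.J)]
  refine tsum_congr fun j => ?_
  change fl _ _ _ _ _ _ * x (Sum.inr j) = 0
  rw [hx j, mul_zero]

theorem P_eq_sum (n : ℕ) (x : G.I ⊕ G.J → ℝ) : G.P n x =
    ∑ j ∈ (G.fin' n true).toFinset, (√(G.ρ' n : ℝ))⁻¹ * x (Sum.inr j) := by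
  unfold GS.P ap
  rw [tsum_eq_sum (s := (G.fin' n true).toFinset)]
  · refine Finset.sum_congr rfl fun j hj => ?_
    rw [Set.Finite.mem_toFinset] at hj
    have hj' : G.sh' j = n ∧ G.ty' j = true := hj
    unfold fl
    rw [if_pos hj']
  · intro j hj
    rw [Set.Finite.mem_toFinset] at hj
    have hj' : ¬ (G.sh' j = n ∧ G.ty' j = true) := hj
    unfold fl
    rw [if_neg hj', zero_mul]

/-- the system without the inverse cascade -/
abbrev G0 : GS := { G with r := fun _ => 0, r0 := fun _ => le_rfl }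

theorem vf0_inr (x : G.I ⊕ G.J → ℝ) (j : G.J) : (G0 G).vf x (Sum.inr j) = 0 := by
  unfold GS.vf
  simp

theorem vf_eq {x : G.I ⊕ G.J → ℝ} (hx : ∀ j, x (Sum.inr j) = 0) (i : G.I ⊕ G.J) :
    (G0 G).vf x i = G.vf x i := by
  cases i with
  | inl i =>
    have h1 : G.P (G.sh i) x = 0 := P_zero G hx _
    have h2 : (G0 G).P (G.sh i) x = 0 := P_zero G hx _
    unfold GS.vf
    dsimp only
    rw [h1]
    congr 1
    split_ifs
    · rfl
    · rfl
    · rw [zero_mul, zero_pow two_ne_zero, mul_zero]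
      rfl
  | inr j =>
    rw [vf0_inr]
    unfold GS.vf
    dsimp only
    rw [P_zero G hx, P_zero G hx, P_zero G hx]
    simp

/-- the modes of the inverse cascade stay zero -/
theorem inr_zero {N : ℕ} {x : ℝ → G.I ⊕ G.J → ℝ} (h : (G0 G).Tr N x)
    (h0 : ∀ j, x 0 (Sum.inr j) = 0) : ∀ t, 0 ≤ t → ∀ j, x t (Sum.inr j) = 0 := by
  intro t ht j
  by_cases hj : N < G.sh' j
  · exact h.out t (Sum.inr j) hj
  · rw [not_lt] at hj
    have hd : ∀ s, 0 ≤ s → HasDerivWithinAt (fun τ => x τ (Sum.inr j))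
        (-(G.d' j * x s (Sum.inr j))) (Ici 0) s := by
      intro s hs
      have h1 := h.ode (Sum.inr j) hj s hs
      rw [vf0_inr, add_zero] at h1
      exact h1
    have h2 := norm_le_gronwallBound_of_norm_deriv_right_le (f := fun τ => x τ (Sum.inr j))
      (f' := fun s => -(G.d' j * x s (Sum.inr j))) (δ := 0) (K := G.d' j) (ε := 0) (a := 0)
      (b := t) (fun s hs => ((hd s hs.1).continuousWithinAt).mono Icc_subset_Ici_self)
      (fun s hs => (hd s hs.1).mono (Ici_subset_Ici.2 hs.1)) (by rw [h0 j, norm_zero])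
      (fun s _ => by
        rw [norm_neg, norm_mul, Real.norm_of_nonneg (G.d0' j), add_zero]) t ⟨ht, le_rfl⟩
    rw [gronwallBound_ε0_δ0] at h2
    exact norm_le_zero_iff.1 h2

theorem tr_of {N : ℕ} {x : ℝ → G.I ⊕ G.J → ℝ} (h : (G0 G).Tr N x)
    (h0 : ∀ j, x 0 (Sum.inr j) = 0) : G.Tr N x := by
  refine ⟨h.out, fun i hi t ht => ?_⟩
  have h1 := h.ode i hi t ht
  rw [vf_eq G (inr_zero G h h0 t ht)] at h1
  exact h1

end

theorem t_POST (h1 : S_TREX) (h2 : S_CPT) (h3 : S_FIRE) : S_POST := by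
  classical
  intro G n₁ M Λ a x₀ hF ha hD haM hen hZ hJ
  have hen' : G.en x₀ ≠ ⊤ := ne_top_of_le_ne_top ENNReal.ofReal_ne_top hen
  have hres0 : ∀ k j, res G x₀ k (Sum.inr j) = 0 := by
    intro k j
    unfold res
    rw [hJ j]
    split_ifs <;> rfl
  -- the first solution
  have hX : ∀ k, ∃ X : ℝ → G.I ⊕ G.J → ℝ, X 0 = res G x₀ k ∧ (G0 G).Tr k X := fun k =>
    h1 (G0 G) k (res G x₀ k) fun i hi => by
      unfold res
      exact if_neg (not_le.2 hi)
  choose X hX0 hXT using hX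
  have hXj : ∀ k t, 0 ≤ t → ∀ j, X k t (Sum.inr j) = 0 := fun k =>
    inr_zero G (hXT k) fun j => by rw [hX0, hres0]
  have hXG : ∀ k, G.Tr k (X k) := fun k => tr_of G (hXT k) fun j => by rw [hX0, hres0]
  have hres_ev : ∀ i, ∀ᶠ k in atTop, res G x₀ k i = x₀ i := fun i => by
    filter_upwards [eventually_ge_atTop (G.s i)] with k hk
    unfold res
    rw [if_pos hk]
  obtain ⟨φ, x, hφ, hx0, hxLH, hxc⟩ := h2 G x₀ X hD hXG hen' (fun i => by
      simp only [hX0]
      exact tendsto_const_nhds.congr' ((hres_ev i).mono fun k hk => hk.symm)) (by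
      simp only [hX0]
      exact en_res_tendsto G x₀)
  have hxj : ∀ t, 0 ≤ t → ∀ j, x t (Sum.inr j) = 0 := by
    intro t ht j
    have h4 := (hxc (Sum.inr j) t).tendsto_at (x := t) ⟨ht, le_rfl⟩
    have h5 : (fun k => X (φ k) t (Sum.inr j)) = fun _ => (0 : ℝ) :=
      funext fun k => hXj (φ k) t ht j
    rw [h5] at h4
    exact tendsto_nhds_unique h4 tendsto_const_nhds
  -- the second solution
  set wd : ℕ → G.I ⊕ G.J → ℝ := fun k i => res G x₀ k i + pk G k (a k / 4) i with hwd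
  have hW : ∀ k, ∃ W : ℝ → G.I ⊕ G.J → ℝ, W 0 = wd k ∧ G.Tr k W := fun k =>
    h1 G k (wd k) fun i hi => by
      have h4 : res G x₀ k i = 0 := if_neg (not_le.2 hi)
      have h5 : pk G k (a k / 4) i = 0 := by
        cases i with
        | inl i => rfl
        | inr j =>
          have h6 : k < G.sh' j := hi
          change fl G.sh' G.ty' G.ρ' true k j * (a k / 4) = 0
          unfold fl
          rw [if_neg (fun h7 => by omega), zero_mul]
      rw [hwd]
      dsimp only
      rw [h4, h5, add_zero]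
  choose W hW0 hWT using hW
  have hWen : ∀ k, G.en (W k 0) = G.en (res G x₀ k) + ENNReal.ofReal ((a k / 4) ^ 2) := fun k => by
    rw [hW0]
    exact en_add G x₀ hJ k (a k / 4)
  have hWi : ∀ i, ∀ᶠ k in atTop, W k 0 i = x₀ i := by
    intro i
    cases i with
    | inl i =>
      filter_upwards [hres_ev (Sum.inl i)] with k hk
      rw [hW0]
      change res G x₀ k (Sum.inl i) + 0 = _
      rw [add_zero, hk]
    | inr j =>
      filter_upwards [eventually_gt_atTop (G.sh' j)] with k hk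
      rw [hW0]
      change res G x₀ k (Sum.inr j) + fl G.sh' G.ty' G.ρ' true k j * (a k / 4) = _
      unfold fl
      rw [if_neg (fun h7 => by omega), zero_mul, add_zero, hres0, hJ]
  obtain ⟨ψ, w, hψ, hw0, hwLH, hwc⟩ := h2 G x₀ W hD hWT hen' (fun i =>
      tendsto_const_nhds.congr' ((hWi i).mono fun k hk => hk.symm)) (by
      simp only [hWen]
      have h4 : Tendsto (fun k => ENNReal.ofReal ((a k / 4) ^ 2)) atTop (𝓝 0) := by
        have h5 : Tendsto (fun k => (a k / 4) ^ 2) atTop (𝓝 0) := by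
          have := (ha.div_const 4).pow 2
          simpa using this
        have := ENNReal.tendsto_ofReal h5
        rwa [ENNReal.ofReal_zero] at this
      have h6 := (en_res_tendsto G x₀).add h4
      rwa [add_zero] at h6)
  refine ⟨x, w, hx0, hw0, hxLH, hwLH, fun η hη => ?_⟩
  by_contra hcon
  push Not at hcon
  -- the parameters tend to infinity
  have hra : Tendsto (fun n => G.r n * a n) atTop atTop := by
    have hpos : 0 < G.r n₁ * a n₁ := mul_pos (hF.rp n₁) (hF.a0 n₁)
    have h4 : ∀ k, G.r n₁ * a n₁ * 4 ^ k ≤ G.r (k + n₁) * a (k + n₁) := by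
      intro k
      induction k with
      | zero => simp
      | succ k ih =>
        have h5 := hF.mu (k + n₁) (Nat.le_add_left _ _)
        rw [show k + 1 + n₁ = k + n₁ + 1 by ring]
        calc G.r n₁ * a n₁ * 4 ^ (k + 1) = 4 * (G.r n₁ * a n₁ * 4 ^ k) := by ring
          _ ≤ 4 * (G.r (k + n₁) * a (k + n₁)) := by gcongr
          _ ≤ _ := h5
    have h5 : Tendsto (fun k : ℕ => G.r n₁ * a n₁ * 4 ^ k) atTop atTop :=
      (tendsto_pow_atTop_atTop_of_one_lt (by norm_num : (1 : ℝ) < 4)).const_mul_atTop hpos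
    exact (tendsto_add_atTop_iff_nat n₁).1 (tendsto_atTop_mono h4 h5)
  have hτ : ∀ᶠ n in atTop, Λ / (G.r n * a n) < η := by
    have h4 : Tendsto (fun n => Λ / (G.r n * a n)) atTop (𝓝 0) :=
      Tendsto.div_atTop tendsto_const_nhds hra
    exact (tendsto_order.1 h4).2 η hη
  obtain ⟨m₀, hm₀⟩ := eventually_atTop.1 hτ
  set m := max m₀ n₁ with hm
  have hmn : n₁ ≤ m := le_max_right _ _
  have hmm : m₀ ≤ m := le_max_left _ _
  -- the second solution vanishes in the inverse cascade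
  have hwj : ∀ s, 0 ≤ s → s < η → ∀ j, w s (Sum.inr j) = 0 := by
    intro s hs hsη j
    rcases hs.eq_or_lt with h4 | h4
    · rw [← h4, hw0, hJ]
    · rw [← hcon s ⟨h4, hsη⟩]
      exact hxj s hs j
  -- uniform smallness
  have hsmall : ∀ n, n₁ ≤ n → Λ / (G.r n * a n) < η → ∀ᶠ k in atTop,
      ∀ s ∈ Icc 0 (Λ / (G.r n * a n)), G.P n (W (ψ k) s) < a n / 4 := by
    intro n _ hn
    have hρ : (0 : ℝ) < G.ρ' n := by exact_mod_cast G.pos' n
    have hρ1 : (1 : ℝ) ≤ G.ρ' n := by exact_mod_cast G.pos' n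
    set S := (G.fin' n true).toFinset with hS
    have hcard : S.card = G.ρ' n := by
      rw [← G.card' n true, Set.ncard_eq_toFinset_card _ (G.fin' n true)]
    set δ : ℝ := a n / (4 * (G.ρ' n + 1)) with hδ
    have hδ0 : 0 < δ := div_pos (hF.a0 n) (by positivity)
    have h4 : ∀ j ∈ S, ∀ᶠ k in atTop, ∀ s ∈ Icc 0 (Λ / (G.r n * a n)),
        |W (ψ k) s (Sum.inr j)| < δ := by
      intro j _
      have h5 := Metric.tendstoUniformlyOn_iff.1 (hwc (Sum.inr j) (Λ / (G.r n * a n))) δ hδ0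
      filter_upwards [h5] with k hk s hs
      have h6 := hk s hs
      rw [hwj s hs.1 (hs.2.trans_lt hn) j, dist_zero_left, Real.norm_eq_abs] at h6
      exact h6
    have h5 : ∀ᶠ k in atTop, ∀ j ∈ S, ∀ s ∈ Icc 0 (Λ / (G.r n * a n)),
        |W (ψ k) s (Sum.inr j)| < δ := (Finset.eventually_all S).2 h4
    filter_upwards [h5] with k hk s hs
    rw [P_eq_sum]
    have hinv : (√(G.ρ' n : ℝ))⁻¹ ≤ 1 := inv_le_one_of_one_le₀ (Real.one_le_sqrt.2 hρ1)
    have hinv0 : 0 ≤ (√(G.ρ' n : ℝ))⁻¹ := by positivity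
    have h6 : ∀ j ∈ S, (√(G.ρ' n : ℝ))⁻¹ * W (ψ k) s (Sum.inr j) ≤ δ := by
      intro j hj
      have h7 := (hk j hj s hs).le
      have h8 := le_abs_self (W (ψ k) s (Sum.inr j))
      have h9 := abs_nonneg (W (ψ k) s (Sum.inr j))
      calc (√(G.ρ' n : ℝ))⁻¹ * W (ψ k) s (Sum.inr j)
          ≤ (√(G.ρ' n : ℝ))⁻¹ * |W (ψ k) s (Sum.inr j)| := by gcongr
        _ ≤ 1 * |W (ψ k) s (Sum.inr j)| := by gcongr
        _ ≤ δ := by rw [one_mul]; exact h7
    calc ∑ j ∈ S, (√(G.ρ' n : ℝ))⁻¹ * W (ψ k) s (Sum.inr j) ≤ ∑ _j ∈ S, δ :=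
          Finset.sum_le_sum h6
      _ = G.ρ' n * δ := by rw [Finset.sum_const, hcard, nsmul_eq_mul]
      _ < a n / 4 := by
          rw [hδ]
          have ha0 := hF.a0 n
          rw [mul_div_assoc', div_lt_div_iff₀ (by positivity) (by norm_num)]
          nlinarith
  have e1 := hsmall m hmn (hm₀ m hmm)
  have e2 := hsmall (m + 1) (by omega) (hm₀ (m + 1) (by omega))
  have e3 : ∀ᶠ k in atTop, m < ψ k := hψ.tendsto_atTop.eventually (eventually_gt_atTop m)
  obtain ⟨k, hk1, hk2, hk3⟩ := (e1.and (e2.and e3)).exists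
  -- the inverse cascade
  set N := ψ k with hN
  have hM0 := hF.M0
  have hfire := h3 G n₁ N M Λ a (W N) hF (by omega) (hWT N) (by
      rw [hWen]
      have ha0 := hF.a0 N
      have ha1 := haM N
      calc G.en (res G x₀ N) + ENNReal.ofReal ((a N / 4) ^ 2)
          ≤ ENNReal.ofReal (M ^ 2 / 2) + ENNReal.ofReal (M ^ 2 / 16) := by
            refine add_le_add ((en_res_le G x₀ N).trans hen) (ENNReal.ofReal_le_ofReal ?_)
            nlinarith
        _ = ENNReal.ofReal (M ^ 2 / 2 + M ^ 2 / 16) :=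
            (ENNReal.ofReal_add (by positivity) (by positivity)).symm
        _ ≤ _ := ENNReal.ofReal_le_ofReal (by nlinarith [sq_nonneg M]))
    (fun n hn hnN => by
      refine (hZ n hn).trans_eq ?_
      unfold GS.Z ap
      refine tsum_congr fun i => ?_
      rw [hW0]
      change _ = fl G.sh G.ty G.ρ false n i * (res G x₀ N (Sum.inl i) + 0)
      by_cases hi : G.sh i = n ∧ G.ty i = false
      · have h7 : res G x₀ N (Sum.inl i) = x₀ (Sum.inl i) := by
          unfold res
          rw [if_pos]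
          change G.sh i ≤ N
          rw [hi.1]
          exact hnN
        rw [h7, add_zero]
      · unfold fl
        rw [if_neg hi, zero_mul, zero_mul])
    (fun j hj => by
      rw [hW0]
      change res G x₀ N (Sum.inr j) + fl G.sh' G.ty' G.ρ' true N j * (a N / 4) = 0
      unfold fl
      rw [if_neg (fun h7 => by omega), zero_mul, add_zero, hres0])
    (fun j _ => by
      rw [hW0]
      change res G x₀ N (Sum.inr j) + fl G.sh' G.ty' G.ρ' true N j * (a N / 4) = _
      rw [hres0, zero_add])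
    m hmn hk3
  obtain ⟨n, hn, s, hs, hP⟩ := hfire
  rcases hn with rfl | rfl
  · exact absurd hP (not_le.2 (hk1 s hs))
  · exact absurd hP (not_le.2 (hk2 s hs))

end Pool.Agent.K1H10.NU
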